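import Pool.Agent.Gab7c_h87.Ax

/-! Certificate; see `Pool/Agent/Gab7c_h87/Ax.lean`. -/

set_option autoImplicit false
set_option maxRecDepth 100000

namespace Pool.Agent.Gab7c_h87.CA2

open Pool.Agent.Gab7c_h87.Sat

/-- the variables -/
def v : Tr VC := (.node (.node (.node (.node (.node (.node (.node (.node (.node (.node (.leaf ⟨0, 127, 0, 0⟩)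
(.leaf ⟨2, 11339, 0, 0⟩))
(.leaf ⟨0, 12622, 0, 0⟩))
(.node (.leaf ⟨0, 7120, 0, 0⟩)
(.leaf ⟨1, 56, 88, 0⟩)))
(.node (.node (.node (.leaf ⟨0, 3952, 0, 0⟩)
(.leaf ⟨3, 104, 97, 7⟩))
(.leaf ⟨0, 15937, 0, 0⟩))
(.node (.leaf ⟨0, 10088, 0, 0⟩)
(.leaf ⟨2, 953, 0, 0⟩))))
(.node (.node (.node (.node (.leaf ⟨0, 1976, 0, 0⟩)
(.leaf ⟨2, 14437, 0, 0⟩))
(.leaf ⟨0, 14375, 0, 0⟩))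
(.node (.leaf ⟨0, 8542, 0, 0⟩)
(.leaf ⟨1, 112, 52, 0⟩)))
(.node (.node (.leaf ⟨0, 5181, 0, 0⟩)
(.leaf ⟨1, 40, 96, 0⟩))
(.node (.leaf ⟨0, 11335, 0, 0⟩)
(.leaf ⟨2, 7211, 0, 0⟩)))))
(.node (.node (.node (.node (.node (.leaf ⟨0, 1012, 0, 0⟩)
(.leaf ⟨2, 12559, 0, 0⟩))
(.leaf ⟨0, 13387, 0, 0⟩))
(.node (.leaf ⟨0, 8065, 0, 0⟩)
(.leaf ⟨1, 100, 104, 0⟩)))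
(.node (.node (.leaf ⟨0, 4540, 0, 0⟩)
(.leaf ⟨1, 16, 32, 0⟩))
(.node (.leaf ⟨0, 10535, 0, 0⟩)
(.leaf ⟨2, 5199, 0, 0⟩))))
(.node (.node (.node (.node (.leaf ⟨0, 3041, 0, 0⟩)
(.leaf ⟨3, 49, 88, 0⟩))
(.leaf ⟨0, 15200, 0, 0⟩))
(.node (.leaf ⟨0, 9176, 0, 0⟩)
(.leaf ⟨1, 39, 71, 0⟩)))
(.node (.node (.leaf ⟨0, 6199, 0, 0⟩)
(.leaf ⟨1, 96, 96, 0⟩))
(.node (.leaf ⟨0, 12161, 0, 0⟩)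
(.leaf ⟨2, 10319, 0, 0⟩))))))
(.node (.node (.node (.node (.node (.node (.leaf ⟨0, 942, 0, 0⟩)
(.leaf ⟨2, 12319, 0, 0⟩))
(.leaf ⟨0, 13280, 0, 0⟩))
(.node (.leaf ⟨0, 7239, 0, 0⟩)
(.leaf ⟨1, 88, 112, 0⟩)))
(.node (.node (.node (.leaf ⟨0, 4064, 0, 0⟩)
(.leaf ⟨3, 112, 97, 7⟩))
(.leaf ⟨1, 0, 0, 0⟩))
(.node (.leaf ⟨0, 10192, 0, 0⟩)
(.leaf ⟨2, 3151, 0, 0⟩))))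
(.node (.node (.node (.node (.leaf ⟨0, 2111, 0, 0⟩)
(.leaf ⟨2, 15381, 0, 0⟩))
(.leaf ⟨0, 14471, 0, 0⟩))
(.node (.leaf ⟨0, 9080, 0, 0⟩)
(.leaf ⟨1, 112, 104, 0⟩)))
(.node (.node (.leaf ⟨0, 6040, 0, 0⟩)
(.leaf ⟨1, 72, 96, 0⟩))
(.node (.leaf ⟨0, 11787, 0, 0⟩)
(.leaf ⟨2, 9137, 0, 0⟩)))))
(.node (.node (.node (.node (.node (.leaf ⟨0, 1341, 0, 0⟩)
(.leaf ⟨2, 13383, 0, 0⟩))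
(.leaf ⟨0, 14224, 0, 0⟩))
(.node (.leaf ⟨0, 8303, 0, 0⟩)
(.leaf ⟨1, 104, 98, 0⟩)))
(.node (.node (.leaf ⟨0, 5076, 0, 0⟩)
(.leaf ⟨1, 64, 32, 0⟩))
(.node (.leaf ⟨0, 11287, 0, 0⟩)
(.leaf ⟨2, 6343, 0, 0⟩))))
(.node (.node (.node (.node (.leaf ⟨0, 3215, 0, 0⟩)
(.leaf ⟨3, 97, 104, 0⟩))
(.leaf ⟨0, 15374, 0, 0⟩))
(.node (.leaf ⟨0, 9487, 0, 0⟩)
(.leaf ⟨1, 47, 103, 0⟩)))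
(.node (.node (.leaf ⟨0, 6671, 0, 0⟩)
(.leaf ⟨1, 50, 56, 0⟩))
(.node (.leaf ⟨0, 12367, 0, 0⟩)
(.leaf ⟨2, 10823, 0, 0⟩)))))))
(.node (.node (.node (.node (.node (.node (.node (.leaf ⟨0, 445, 0, 0⟩)
(.leaf ⟨2, 11527, 0, 0⟩))
(.leaf ⟨0, 13040, 0, 0⟩))
(.node (.leaf ⟨0, 7207, 0, 0⟩)
(.leaf ⟨1, 82, 56, 0⟩)))
(.node (.node (.node (.leaf ⟨0, 4008, 0, 0⟩)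
(.leaf ⟨3, 112, 49, 7⟩))
(.leaf ⟨0, 16130, 0, 0⟩))
(.node (.leaf ⟨0, 10146, 0, 0⟩)
(.leaf ⟨2, 2017, 0, 0⟩))))
(.node (.node (.node (.node (.leaf ⟨0, 2018, 0, 0⟩)
(.leaf ⟨2, 15367, 0, 0⟩))
(.leaf ⟨0, 14414, 0, 0⟩))
(.node (.leaf ⟨0, 8668, 0, 0⟩)
(.leaf ⟨1, 112, 88, 0⟩)))
(.node (.node (.leaf ⟨0, 5560, 0, 0⟩)
(.leaf ⟨1, 48, 72, 0⟩))
(.node (.leaf ⟨0, 11399, 0, 0⟩)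
(.leaf ⟨2, 7245, 0, 0⟩)))))
(.node (.node (.node (.node (.node (.leaf ⟨0, 1135, 0, 0⟩)
(.leaf ⟨2, 13327, 0, 0⟩))
(.leaf ⟨0, 14090, 0, 0⟩))
(.node (.leaf ⟨0, 8096, 0, 0⟩)
(.leaf ⟨1, 104, 52, 0⟩)))
(.node (.node (.leaf ⟨0, 5044, 0, 0⟩)
(.leaf ⟨1, 32, 32, 0⟩))
(.node (.leaf ⟨0, 11208, 0, 0⟩)
(.leaf ⟨2, 6223, 0, 0⟩))))
(.node (.node (.node (.node (.leaf ⟨0, 3056, 0, 0⟩)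
(.leaf ⟨3, 50, 112, 1⟩))
(.leaf ⟨0, 15296, 0, 0⟩))
(.node (.leaf ⟨0, 9263, 0, 0⟩)
(.leaf ⟨1, 31, 55, 0⟩)))
(.node (.node (.leaf ⟨0, 6287, 0, 0⟩)
(.leaf ⟨1, 28, 112, 0⟩))
(.node (.leaf ⟨0, 12224, 0, 0⟩)
(.leaf ⟨2, 10439, 0, 0⟩))))))
(.node (.node (.node (.node (.node (.node (.leaf ⟨0, 988, 0, 0⟩)
(.leaf ⟨2, 12375, 0, 0⟩))
(.leaf ⟨0, 13341, 0, 0⟩))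
(.node (.leaf ⟨0, 7691, 0, 0⟩)
(.leaf ⟨1, 98, 88, 0⟩)))
(.node (.node (.leaf ⟨0, 4215, 0, 0⟩)
(.leaf ⟨1, 8, 32, 0⟩))
(.node (.leaf ⟨0, 10295, 0, 0⟩)
(.leaf ⟨2, 5041, 0, 0⟩))))
(.node (.node (.node (.node (.leaf ⟨0, 2540, 0, 0⟩)
(.leaf ⟨3, 7, 7, 2⟩))
(.leaf ⟨0, 14859, 0, 0⟩))
(.node (.leaf ⟨0, 9144, 0, 0⟩)
(.leaf ⟨1, 23, 71, 0⟩)))
(.node (.node (.leaf ⟨0, 6096, 0, 0⟩)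
(.leaf ⟨1, 96, 40, 0⟩))
(.node (.leaf ⟨0, 11921, 0, 0⟩)
(.leaf ⟨2, 9295, 0, 0⟩)))))
(.node (.node (.node (.node (.node (.leaf ⟨0, 1948, 0, 0⟩)
(.leaf ⟨2, 14365, 0, 0⟩))
(.leaf ⟨0, 14359, 0, 0⟩))
(.node (.leaf ⟨0, 8430, 0, 0⟩)
(.leaf ⟨1, 112, 26, 0⟩)))
(.node (.node (.leaf ⟨0, 5092, 0, 0⟩)
(.leaf ⟨1, 24, 80, 0⟩))
(.node (.leaf ⟨0, 11303, 0, 0⟩)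
(.leaf ⟨2, 6727, 0, 0⟩))))
(.node (.node (.node (.node (.leaf ⟨0, 3599, 0, 0⟩)
(.leaf ⟨3, 98, 112, 1⟩))
(.leaf ⟨0, 15427, 0, 0⟩))
(.node (.leaf ⟨0, 9912, 0, 0⟩)
(.leaf ⟨1, 79, 55, 0⟩)))
(.node (.node (.leaf ⟨0, 7074, 0, 0⟩)
(.leaf ⟨1, 52, 88, 0⟩))
(.node (.leaf ⟨0, 12439, 0, 0⟩)
(.leaf ⟨2, 11303, 0, 0⟩))))))))
(.node (.node (.node (.node (.node (.node (.node (.node (.leaf ⟨0, 254, 0, 0⟩)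
(.leaf ⟨2, 11399, 0, 0⟩))
(.leaf ⟨0, 12815, 0, 0⟩))
(.node (.leaf ⟨0, 7183, 0, 0⟩)
(.leaf ⟨1, 56, 112, 0⟩)))
(.node (.node (.node (.leaf ⟨0, 3992, 0, 0⟩)
(.leaf ⟨3, 112, 25, 7⟩))
(.leaf ⟨0, 16064, 0, 0⟩))
(.node (.leaf ⟨0, 10136, 0, 0⟩)
(.leaf ⟨2, 1009, 0, 0⟩))))
(.node (.node (.node (.node (.leaf ⟨0, 2008, 0, 0⟩)
(.leaf ⟨2, 14599, 0, 0⟩))
(.leaf ⟨0, 14411, 0, 0⟩))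
(.node (.leaf ⟨0, 8558, 0, 0⟩)
(.leaf ⟨1, 112, 73, 0⟩)))
(.node (.node (.leaf ⟨0, 5199, 0, 0⟩)
(.leaf ⟨1, 48, 40, 0⟩))
(.node (.leaf ⟨0, 11341, 0, 0⟩)
(.leaf ⟨2, 7239, 0, 0⟩)))))
(.node (.node (.node (.node (.node (.leaf ⟨0, 1087, 0, 0⟩)
(.leaf ⟨2, 12815, 0, 0⟩))
(.leaf ⟨0, 14083, 0, 0⟩))
(.node (.leaf ⟨0, 8072, 0, 0⟩)
(.leaf ⟨1, 104, 49, 0⟩)))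
(.node (.node (.leaf ⟨0, 5041, 0, 0⟩)
(.leaf ⟨1, 32, 8, 0⟩))
(.node (.leaf ⟨0, 11176, 0, 0⟩)
(.leaf ⟨2, 6191, 0, 0⟩))))
(.node (.node (.node (.node (.leaf ⟨0, 3044, 0, 0⟩)
(.leaf ⟨3, 50, 56, 1⟩))
(.leaf ⟨0, 15248, 0, 0⟩))
(.node (.leaf ⟨0, 9200, 0, 0⟩)
(.leaf ⟨1, 120, 120, 0⟩)))
(.node (.node (.leaf ⟨0, 6231, 0, 0⟩)
(.leaf ⟨1, 25, 112, 0⟩))
(.node (.leaf ⟨0, 12176, 0, 0⟩)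
(.leaf ⟨2, 10343, 0, 0⟩))))))
(.node (.node (.node (.node (.node (.node (.leaf ⟨0, 954, 0, 0⟩)
(.leaf ⟨2, 12343, 0, 0⟩))
(.leaf ⟨0, 13335, 0, 0⟩))
(.node (.leaf ⟨0, 7245, 0, 0⟩)
(.leaf ⟨1, 97, 104, 0⟩)))
(.node (.node (.leaf ⟨0, 4191, 0, 0⟩)
(.leaf ⟨1, 8, 8, 0⟩))
(.node (.leaf ⟨0, 10271, 0, 0⟩)
(.leaf ⟨2, 3343, 0, 0⟩))))
(.node (.node (.node (.node (.leaf ⟨0, 2159, 0, 0⟩)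
(.leaf ⟨2, 15429, 0, 0⟩))
(.leaf ⟨0, 14603, 0, 0⟩))
(.node (.leaf ⟨0, 9138, 0, 0⟩)
(.leaf ⟨1, 15, 39, 0⟩)))
(.node (.node (.leaf ⟨0, 6064, 0, 0⟩)
(.leaf ⟨1, 80, 72, 0⟩))
(.node (.leaf ⟨0, 11843, 0, 0⟩)
(.leaf ⟨2, 9247, 0, 0⟩)))))
(.node (.node (.node (.node (.node (.leaf ⟨0, 1945, 0, 0⟩)
(.leaf ⟨2, 14359, 0, 0⟩))
(.leaf ⟨0, 14272, 0, 0⟩))
(.node (.leaf ⟨0, 8399, 0, 0⟩)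
(.leaf ⟨1, 104, 112, 0⟩)))
(.node (.node (.leaf ⟨0, 5089, 0, 0⟩)
(.leaf ⟨1, 3, 3, 0⟩))
(.node (.leaf ⟨0, 11293, 0, 0⟩)
(.leaf ⟨2, 6471, 0, 0⟩))))
(.node (.node (.node (.node (.leaf ⟨0, 3560, 0, 0⟩)
(.leaf ⟨3, 98, 88, 1⟩))
(.leaf ⟨0, 15381, 0, 0⟩))
(.node (.leaf ⟨0, 9704, 0, 0⟩)
(.leaf ⟨1, 55, 47, 0⟩)))
(.node (.node (.leaf ⟨0, 6896, 0, 0⟩)
(.leaf ⟨1, 50, 112, 0⟩))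
(.node (.leaf ⟨0, 12391, 0, 0⟩)
(.leaf ⟨2, 11287, 0, 0⟩)))))))
(.node (.node (.node (.node (.node (.node (.node (.leaf ⟨0, 494, 0, 0⟩)
(.leaf ⟨2, 11783, 0, 0⟩))
(.leaf ⟨0, 13232, 0, 0⟩))
(.node (.leaf ⟨0, 7213, 0, 0⟩)
(.leaf ⟨1, 88, 56, 0⟩)))
(.node (.node (.node (.leaf ⟨0, 4040, 0, 0⟩)
(.leaf ⟨3, 112, 73, 7⟩))
(.leaf ⟨0, 16192, 0, 0⟩))
(.node (.leaf ⟨0, 10160, 0, 0⟩)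
(.leaf ⟨2, 3103, 0, 0⟩))))
(.node (.node (.node (.node (.leaf ⟨0, 2024, 0, 0⟩)
(.leaf ⟨2, 15373, 0, 0⟩))
(.leaf ⟨0, 14437, 0, 0⟩))
(.node (.leaf ⟨0, 8696, 0, 0⟩)
(.leaf ⟨1, 112, 98, 0⟩)))
(.node (.node (.leaf ⟨0, 5816, 0, 0⟩)
(.leaf ⟨1, 48, 96, 0⟩))
(.node (.leaf ⟨0, 11527, 0, 0⟩)
(.leaf ⟨2, 7431, 0, 0⟩)))))
(.node (.node (.node (.node (.node (.leaf ⟨0, 1213, 0, 0⟩)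
(.leaf ⟨2, 13339, 0, 0⟩))
(.leaf ⟨0, 14210, 0, 0⟩))
(.node (.leaf ⟨0, 8255, 0, 0⟩)
(.leaf ⟨1, 104, 88, 0⟩)))
(.node (.node (.leaf ⟨0, 5073, 0, 0⟩)
(.leaf ⟨1, 64, 8, 0⟩))
(.node (.leaf ⟨0, 11232, 0, 0⟩)
(.leaf ⟨2, 6247, 0, 0⟩))))
(.node (.node (.node (.node (.leaf ⟨0, 3119, 0, 0⟩)
(.leaf ⟨3, 82, 56, 1⟩))
(.leaf ⟨0, 15371, 0, 0⟩))
(.node (.leaf ⟨0, 9295, 0, 0⟩)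
(.leaf ⟨1, 47, 47, 0⟩)))
(.node (.node (.leaf ⟨0, 6415, 0, 0⟩)
(.leaf ⟨1, 49, 88, 0⟩))
(.node (.leaf ⟨0, 12335, 0, 0⟩)
(.leaf ⟨2, 10567, 0, 0⟩))))))
(.node (.node (.node (.node (.node (.node (.leaf ⟨0, 1002, 0, 0⟩)
(.leaf ⟨2, 12431, 0, 0⟩))
(.leaf ⟨0, 13351, 0, 0⟩))
(.node (.leaf ⟨0, 7945, 0, 0⟩)
(.leaf ⟨1, 98, 112, 0⟩)))
(.node (.node (.leaf ⟨0, 4286, 0, 0⟩)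
(.leaf ⟨1, 16, 8, 0⟩))
(.node (.leaf ⟨0, 10343, 0, 0⟩)
(.leaf ⟨2, 5151, 0, 0⟩))))
(.node (.node (.node (.node (.leaf ⟨0, 3000, 0, 0⟩)
(.leaf ⟨3, 26, 112, 1⟩))
(.leaf ⟨0, 15107, 0, 0⟩))
(.node (.leaf ⟨0, 9170, 0, 0⟩)
(.leaf ⟨1, 39, 23, 0⟩)))
(.node (.node (.leaf ⟨0, 6175, 0, 0⟩)
(.leaf ⟨1, 96, 72, 0⟩))
(.node (.leaf ⟨0, 12000, 0, 0⟩)
(.leaf ⟨2, 10287, 0, 0⟩)))))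
(.node (.node (.node (.node (.node (.leaf ⟨0, 1970, 0, 0⟩)
(.leaf ⟨2, 14407, 0, 0⟩))
(.leaf ⟨0, 14365, 0, 0⟩))
(.node (.leaf ⟨0, 8527, 0, 0⟩)
(.leaf ⟨1, 112, 49, 0⟩)))
(.node (.node (.leaf ⟨0, 5104, 0, 0⟩)
(.leaf ⟨1, 40, 40, 0⟩))
(.node (.leaf ⟨0, 11309, 0, 0⟩)
(.leaf ⟨2, 7191, 0, 0⟩))))
(.node (.node (.node (.node (.leaf ⟨0, 3824, 0, 0⟩)
(.leaf ⟨3, 104, 49, 7⟩))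
(.leaf ⟨0, 15881, 0, 0⟩))
(.node (.leaf ⟨0, 9968, 0, 0⟩)
(.leaf ⟨1, 103, 79, 0⟩)))
(.node (.node (.leaf ⟨0, 7088, 0, 0⟩)
(.leaf ⟨1, 52, 112, 0⟩))
(.node (.leaf ⟨0, 12567, 0, 0⟩)
(.leaf ⟨2, 11309, 0, 0⟩)))))))))
(.node (.node (.node (.node (.node (.node (.node (.node (.node (.leaf ⟨0, 191, 0, 0⟩)
(.leaf ⟨2, 11341, 0, 0⟩))
(.leaf ⟨0, 12784, 0, 0⟩))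
(.node (.leaf ⟨0, 7136, 0, 0⟩)
(.leaf ⟨1, 56, 104, 0⟩)))
(.node (.node (.node (.leaf ⟨0, 3977, 0, 0⟩)
(.leaf ⟨3, 104, 98, 8⟩))
(.leaf ⟨0, 16001, 0, 0⟩))
(.node (.leaf ⟨0, 10096, 0, 0⟩)
(.leaf ⟨2, 1001, 0, 0⟩))))
(.node (.node (.node (.node (.leaf ⟨0, 1993, 0, 0⟩)
(.leaf ⟨2, 14471, 0, 0⟩))
(.leaf ⟨0, 14407, 0, 0⟩))
(.node (.leaf ⟨0, 8557, 0, 0⟩)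
(.leaf ⟨1, 112, 56, 0⟩)))
(.node (.node (.leaf ⟨0, 5182, 0, 0⟩)
(.leaf ⟨1, 48, 24, 0⟩))
(.node (.leaf ⟨0, 11339, 0, 0⟩)
(.leaf ⟨2, 7213, 0, 0⟩)))))
(.node (.node (.node (.node (.node (.leaf ⟨0, 1016, 0, 0⟩)
(.leaf ⟨2, 12567, 0, 0⟩))
(.leaf ⟨0, 13835, 0, 0⟩))
(.node (.leaf ⟨0, 8066, 0, 0⟩)
(.leaf ⟨1, 100, 112, 0⟩)))
(.node (.node (.leaf ⟨0, 4600, 0, 0⟩)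
(.leaf ⟨1, 16, 64, 0⟩))
(.node (.leaf ⟨0, 10791, 0, 0⟩)
(.leaf ⟨2, 6175, 0, 0⟩))))
(.node (.node (.node (.node (.leaf ⟨0, 3042, 0, 0⟩)
(.leaf ⟨3, 49, 112, 0⟩))
(.leaf ⟨0, 15240, 0, 0⟩))
(.node (.leaf ⟨0, 9192, 0, 0⟩)
(.leaf ⟨1, 71, 39, 0⟩)))
(.node (.node (.leaf ⟨0, 6223, 0, 0⟩)
(.leaf ⟨1, 7, 7, 0⟩))
(.node (.leaf ⟨0, 12168, 0, 0⟩)
(.leaf ⟨2, 10327, 0, 0⟩))))))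
(.node (.node (.node (.node (.node (.node (.leaf ⟨0, 953, 0, 0⟩)
(.leaf ⟨2, 12335, 0, 0⟩))
(.leaf ⟨0, 13327, 0, 0⟩))
(.node (.leaf ⟨0, 7243, 0, 0⟩)
(.leaf ⟨1, 97, 88, 0⟩)))
(.node (.node (.node (.leaf ⟨0, 4159, 0, 0⟩)
(.leaf ⟨3, 112, 98, 8⟩))
(.leaf ⟨1, 1, 1, 0⟩))
(.node (.leaf ⟨0, 10208, 0, 0⟩)
(.leaf ⟨2, 3215, 0, 0⟩))))
(.node (.node (.node (.node (.leaf ⟨0, 2143, 0, 0⟩)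
(.leaf ⟨2, 15427, 0, 0⟩))
(.leaf ⟨0, 14599, 0, 0⟩))
(.node (.leaf ⟨0, 9137, 0, 0⟩)
(.leaf ⟨1, 15, 15, 0⟩)))
(.node (.node (.leaf ⟨0, 6056, 0, 0⟩)
(.leaf ⟨1, 80, 24, 0⟩))
(.node (.leaf ⟨0, 11795, 0, 0⟩)
(.leaf ⟨2, 9169, 0, 0⟩)))))
(.node (.node (.node (.node (.node (.leaf ⟨0, 1468, 0, 0⟩)
(.leaf ⟨2, 14351, 0, 0⟩))
(.leaf ⟨0, 14240, 0, 0⟩))
(.node (.leaf ⟨0, 8311, 0, 0⟩)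
(.leaf ⟨1, 104, 100, 0⟩)))
(.node (.node (.leaf ⟨0, 5080, 0, 0⟩)
(.leaf ⟨1, 64, 64, 0⟩))
(.node (.leaf ⟨0, 11291, 0, 0⟩)
(.leaf ⟨2, 6423, 0, 0⟩))))
(.node (.node (.node (.node (.leaf ⟨0, 3343, 0, 0⟩)
(.leaf ⟨3, 97, 112, 0⟩))
(.leaf ⟨0, 15379, 0, 0⟩))
(.node (.leaf ⟨0, 9656, 0, 0⟩)
(.leaf ⟨1, 55, 31, 0⟩)))
(.node (.node (.leaf ⟨0, 6679, 0, 0⟩)
(.leaf ⟨1, 50, 88, 0⟩))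
(.node (.leaf ⟨0, 12375, 0, 0⟩)
(.leaf ⟨2, 11279, 0, 0⟩)))))))
(.node (.node (.node (.node (.node (.node (.node (.leaf ⟨0, 446, 0, 0⟩)
(.leaf ⟨2, 11531, 0, 0⟩))
(.leaf ⟨0, 13168, 0, 0⟩))
(.node (.leaf ⟨0, 7211, 0, 0⟩)
(.leaf ⟨1, 84, 56, 0⟩)))
(.node (.node (.node (.leaf ⟨0, 4016, 0, 0⟩)
(.leaf ⟨3, 112, 50, 8⟩))
(.leaf ⟨0, 16136, 0, 0⟩))
(.node (.leaf ⟨0, 10152, 0, 0⟩)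
(.leaf ⟨2, 3041, 0, 0⟩))))
(.node (.node (.node (.node (.leaf ⟨0, 2020, 0, 0⟩)
(.leaf ⟨2, 15371, 0, 0⟩))
(.leaf ⟨0, 14435, 0, 0⟩))
(.node (.leaf ⟨0, 8684, 0, 0⟩)
(.leaf ⟨1, 112, 97, 0⟩)))
(.node (.node (.leaf ⟨0, 5592, 0, 0⟩)
(.leaf ⟨1, 48, 80, 0⟩))
(.node (.leaf ⟨0, 11403, 0, 0⟩)
(.leaf ⟨2, 7303, 0, 0⟩)))))
(.node (.node (.node (.node (.node (.leaf ⟨0, 1143, 0, 0⟩)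
(.leaf ⟨2, 13335, 0, 0⟩))
(.leaf ⟨0, 14209, 0, 0⟩))
(.node (.leaf ⟨0, 8128, 0, 0⟩)
(.leaf ⟨1, 104, 56, 0⟩)))
(.node (.node (.leaf ⟨0, 5048, 0, 0⟩)
(.leaf ⟨1, 32, 64, 0⟩))
(.node (.leaf ⟨0, 11216, 0, 0⟩)
(.leaf ⟨2, 6231, 0, 0⟩))))
(.node (.node (.node (.node (.leaf ⟨0, 3103, 0, 0⟩)
(.leaf ⟨3, 81, 56, 0⟩))
(.leaf ⟨0, 15367, 0, 0⟩))
(.node (.leaf ⟨0, 9271, 0, 0⟩)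
(.leaf ⟨1, 47, 31, 0⟩)))
(.node (.node (.leaf ⟨0, 6295, 0, 0⟩)
(.leaf ⟨1, 49, 56, 0⟩))
(.node (.leaf ⟨0, 12319, 0, 0⟩)
(.leaf ⟨2, 10535, 0, 0⟩))))))
(.node (.node (.node (.node (.node (.node (.leaf ⟨0, 1001, 0, 0⟩)
(.leaf ⟨2, 12391, 0, 0⟩))
(.leaf ⟨0, 13342, 0, 0⟩))
(.node (.leaf ⟨0, 7939, 0, 0⟩)
(.leaf ⟨1, 98, 104, 0⟩)))
(.node (.node (.leaf ⟨0, 4285, 0, 0⟩)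
(.leaf ⟨1, 8, 64, 0⟩))
(.node (.leaf ⟨0, 10319, 0, 0⟩)
(.leaf ⟨2, 5073, 0, 0⟩))))
(.node (.node (.node (.node (.leaf ⟨0, 2996, 0, 0⟩)
(.leaf ⟨3, 25, 112, 0⟩))
(.leaf ⟨0, 14915, 0, 0⟩))
(.node (.leaf ⟨0, 9169, 0, 0⟩)
(.leaf ⟨1, 39, 15, 0⟩)))
(.node (.node (.leaf ⟨0, 6112, 0, 0⟩)
(.leaf ⟨1, 96, 48, 0⟩))
(.node (.leaf ⟨0, 11952, 0, 0⟩)
(.leaf ⟨2, 10271, 0, 0⟩)))))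
(.node (.node (.node (.node (.node (.leaf ⟨0, 1969, 0, 0⟩)
(.leaf ⟨2, 14375, 0, 0⟩))
(.leaf ⟨0, 14363, 0, 0⟩))
(.node (.leaf ⟨0, 8444, 0, 0⟩)
(.leaf ⟨1, 112, 28, 0⟩)))
(.node (.node (.leaf ⟨0, 5096, 0, 0⟩)
(.leaf ⟨1, 24, 96, 0⟩))
(.node (.leaf ⟨0, 11307, 0, 0⟩)
(.leaf ⟨2, 7183, 0, 0⟩))))
(.node (.node (.node (.node (.leaf ⟨0, 3816, 0, 0⟩)
(.leaf ⟨3, 100, 112, 2⟩))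
(.leaf ⟨0, 15875, 0, 0⟩))
(.node (.leaf ⟨0, 9960, 0, 0⟩)
(.leaf ⟨1, 87, 79, 0⟩)))
(.node (.node (.leaf ⟨0, 7080, 0, 0⟩)
(.leaf ⟨1, 52, 104, 0⟩))
(.node (.leaf ⟨0, 12559, 0, 0⟩)
(.leaf ⟨2, 11307, 0, 0⟩))))))))
(.node (.node (.node (.node (.node (.node (.node (.node (.leaf ⟨0, 319, 0, 0⟩)
(.leaf ⟨2, 11403, 0, 0⟩))
(.leaf ⟨0, 12823, 0, 0⟩))
(.node (.leaf ⟨0, 7191, 0, 0⟩)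
(.leaf ⟨1, 81, 56, 0⟩)))
(.node (.node (.node (.leaf ⟨0, 4001, 0, 0⟩)
(.leaf ⟨3, 112, 26, 8⟩))
(.leaf ⟨0, 16129, 0, 0⟩))
(.node (.leaf ⟨0, 10145, 0, 0⟩)
(.leaf ⟨2, 1945, 0, 0⟩))))
(.node (.node (.node (.node (.leaf ⟨0, 2017, 0, 0⟩)
(.leaf ⟨2, 14855, 0, 0⟩))
(.leaf ⟨0, 14413, 0, 0⟩))
(.node (.leaf ⟨0, 8572, 0, 0⟩)
(.leaf ⟨1, 112, 74, 0⟩)))
(.node (.node (.leaf ⟨0, 5207, 0, 0⟩)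
(.leaf ⟨1, 48, 48, 0⟩))
(.node (.leaf ⟨0, 11342, 0, 0⟩)
(.leaf ⟨2, 7243, 0, 0⟩)))))
(.node (.node (.node (.node (.node (.leaf ⟨0, 1119, 0, 0⟩)
(.leaf ⟨2, 12823, 0, 0⟩))
(.leaf ⟨0, 14089, 0, 0⟩))
(.node (.leaf ⟨0, 8080, 0, 0⟩)
(.leaf ⟨1, 104, 50, 0⟩)))
(.node (.node (.leaf ⟨0, 5042, 0, 0⟩)
(.leaf ⟨1, 32, 16, 0⟩))
(.node (.leaf ⟨0, 11184, 0, 0⟩)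
(.leaf ⟨2, 6199, 0, 0⟩))))
(.node (.node (.node (.node (.leaf ⟨0, 3048, 0, 0⟩)
(.leaf ⟨3, 50, 88, 1⟩))
(.leaf ⟨0, 15264, 0, 0⟩))
(.node (.leaf ⟨0, 9247, 0, 0⟩)
(.leaf ⟨1, 31, 31, 0⟩)))
(.node (.node (.leaf ⟨0, 6247, 0, 0⟩)
(.leaf ⟨1, 26, 112, 0⟩))
(.node (.leaf ⟨0, 12192, 0, 0⟩)
(.leaf ⟨2, 10407, 0, 0⟩))))))
(.node (.node (.node (.node (.node (.node (.leaf ⟨0, 956, 0, 0⟩)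
(.leaf ⟨2, 12367, 0, 0⟩))
(.leaf ⟨0, 13339, 0, 0⟩))
(.node (.leaf ⟨0, 7246, 0, 0⟩)
(.leaf ⟨1, 97, 112, 0⟩)))
(.node (.node (.leaf ⟨0, 4207, 0, 0⟩)
(.leaf ⟨1, 8, 16, 0⟩))
(.node (.leaf ⟨0, 10287, 0, 0⟩)
(.leaf ⟨2, 3599, 0, 0⟩))))
(.node (.node (.node (.node (.leaf ⟨0, 2167, 0, 0⟩)
(.leaf ⟨3, 7, 7, 9⟩))
(.leaf ⟨0, 14855, 0, 0⟩))
(.node (.leaf ⟨0, 9140, 0, 0⟩)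
(.leaf ⟨1, 23, 23, 0⟩)))
(.node (.node (.leaf ⟨0, 6088, 0, 0⟩)
(.leaf ⟨1, 96, 24, 0⟩))
(.node (.leaf ⟨0, 11907, 0, 0⟩)
(.leaf ⟨2, 9263, 0, 0⟩)))))
(.node (.node (.node (.node (.node (.leaf ⟨0, 1946, 0, 0⟩)
(.leaf ⟨2, 14363, 0, 0⟩))
(.leaf ⟨0, 14351, 0, 0⟩))
(.node (.leaf ⟨0, 8414, 0, 0⟩)
(.leaf ⟨1, 112, 25, 0⟩)))
(.node (.node (.leaf ⟨0, 5090, 0, 0⟩)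
(.leaf ⟨1, 24, 48, 0⟩))
(.node (.leaf ⟨0, 11294, 0, 0⟩)
(.leaf ⟨2, 6679, 0, 0⟩))))
(.node (.node (.node (.node (.leaf ⟨0, 3568, 0, 0⟩)
(.leaf ⟨3, 98, 104, 1⟩))
(.leaf ⟨0, 15382, 0, 0⟩))
(.node (.leaf ⟨0, 9712, 0, 0⟩)
(.leaf ⟨1, 55, 55, 0⟩)))
(.node (.node (.leaf ⟨0, 7024, 0, 0⟩)
(.leaf ⟨1, 52, 56, 0⟩))
(.node (.leaf ⟨0, 12431, 0, 0⟩)
(.leaf ⟨2, 11291, 0, 0⟩)))))))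
(.node (.node (.node (.node (.node (.node (.node (.leaf ⟨0, 508, 0, 0⟩)
(.leaf ⟨2, 11787, 0, 0⟩))
(.leaf ⟨0, 13264, 0, 0⟩))
(.node (.leaf ⟨0, 7214, 0, 0⟩)
(.leaf ⟨1, 88, 88, 0⟩)))
(.node (.node (.node (.leaf ⟨0, 4048, 0, 0⟩)
(.leaf ⟨3, 112, 74, 8⟩))
(.leaf ⟨0, 16256, 0, 0⟩))
(.node (.leaf ⟨0, 10184, 0, 0⟩)
(.leaf ⟨2, 3119, 0, 0⟩))))
(.node (.node (.node (.node (.leaf ⟨0, 2032, 0, 0⟩)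
(.leaf ⟨2, 15379, 0, 0⟩))
(.leaf ⟨0, 14438, 0, 0⟩))
(.node (.leaf ⟨0, 8952, 0, 0⟩)
(.leaf ⟨1, 112, 100, 0⟩)))
(.node (.node (.leaf ⟨0, 5944, 0, 0⟩)
(.leaf ⟨1, 72, 48, 0⟩))
(.node (.leaf ⟨0, 11531, 0, 0⟩)
(.leaf ⟨2, 7687, 0, 0⟩)))))
(.node (.node (.node (.node (.node (.leaf ⟨0, 1214, 0, 0⟩)
(.leaf ⟨2, 13341, 0, 0⟩))
(.leaf ⟨0, 14216, 0, 0⟩))
(.node (.leaf ⟨0, 8287, 0, 0⟩)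
(.leaf ⟨1, 104, 97, 0⟩)))
(.node (.node (.leaf ⟨0, 5074, 0, 0⟩)
(.leaf ⟨1, 64, 16, 0⟩))
(.node (.leaf ⟨0, 11279, 0, 0⟩)
(.leaf ⟨2, 6295, 0, 0⟩))))
(.node (.node (.node (.node (.leaf ⟨0, 3151, 0, 0⟩)
(.leaf ⟨3, 97, 88, 0⟩))
(.leaf ⟨0, 15373, 0, 0⟩))
(.node (.leaf ⟨0, 9359, 0, 0⟩)
(.leaf ⟨1, 47, 55, 0⟩)))
(.node (.node (.leaf ⟨0, 6423, 0, 0⟩)
(.leaf ⟨1, 49, 112, 0⟩))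
(.node (.leaf ⟨0, 12343, 0, 0⟩)
(.leaf ⟨2, 10791, 0, 0⟩))))))
(.node (.node (.node (.node (.node (.node (.leaf ⟨0, 1004, 0, 0⟩)
(.leaf ⟨2, 12439, 0, 0⟩))
(.leaf ⟨0, 13383, 0, 0⟩))
(.node (.leaf ⟨0, 7946, 0, 0⟩)
(.leaf ⟨1, 100, 88, 0⟩)))
(.node (.node (.leaf ⟨0, 4413, 0, 0⟩)
(.leaf ⟨1, 16, 16, 0⟩))
(.node (.leaf ⟨0, 10407, 0, 0⟩)
(.leaf ⟨2, 5167, 0, 0⟩))))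
(.node (.node (.node (.node (.leaf ⟨0, 3032, 0, 0⟩)
(.leaf ⟨3, 49, 56, 0⟩))
(.leaf ⟨0, 15169, 0, 0⟩))
(.node (.leaf ⟨0, 9172, 0, 0⟩)
(.leaf ⟨1, 39, 39, 0⟩)))
(.node (.node (.leaf ⟨0, 6191, 0, 0⟩)
(.leaf ⟨1, 96, 80, 0⟩))
(.node (.leaf ⟨0, 12097, 0, 0⟩)
(.leaf ⟨2, 10295, 0, 0⟩)))))
(.node (.node (.node (.node (.node (.leaf ⟨0, 1972, 0, 0⟩)
(.leaf ⟨2, 14435, 0, 0⟩))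
(.leaf ⟨0, 14366, 0, 0⟩))
(.node (.leaf ⟨0, 8541, 0, 0⟩)
(.leaf ⟨1, 112, 50, 0⟩)))
(.node (.node (.leaf ⟨0, 5151, 0, 0⟩)
(.leaf ⟨1, 40, 48, 0⟩))
(.node (.leaf ⟨0, 11310, 0, 0⟩)
(.leaf ⟨2, 7207, 0, 0⟩))))
(.node (.node (.node (.node (.leaf ⟨0, 3944, 0, 0⟩)
(.leaf ⟨3, 104, 50, 8⟩))
(.leaf ⟨0, 15882, 0, 0⟩))
(.node (.leaf ⟨0, 10040, 0, 0⟩)
(.leaf ⟨1, 124, 124, 0⟩)))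
(.node (.node (.leaf ⟨0, 7112, 0, 0⟩)
(.leaf ⟨1, 56, 56, 0⟩))
(.node (.leaf ⟨0, 12621, 0, 0⟩)
(.leaf ⟨2, 11335, 0, 0⟩))))))))))

end Pool.Agent.Gab7c_h87.CA2
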